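import Pool.Agent.X17.MZ.B
import Pool.Agent.X17.MD.Dig

/-! # Collatz trajectories of the values of a polynomial at integers with random digits -/

set_option autoImplicit false

namespace Pool.Agent.X17.MZ

open Finset Polynomial
open Pool.Agent.Y927.CP (S Bad growth)
open Pool.Agent.X17.MD (Law prob prob_eq prob_nonneg prob_mono prob_or prob_le_one small half_le meas num wt wt_nonneg)

/-- the trajectory of `f n` follows the random model for `k` steps -/
def Follows (f : ℤ[X]) (ε : ℝ) (k n : ℕ) : Prop :=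
  f.eval (n : ℤ) ≠ 0 ∧ ∀ j ≤ k,
    1 / 2 * (3 : ℝ) ^ (-(ε * k)) * (√3 / 2) ^ j * |((f.eval (n : ℤ) : ℤ) : ℝ)| ≤
      |(T^[j] (f.eval (n : ℤ)) : ℝ)| ∧
    |(T^[j] (f.eval (n : ℤ)) : ℝ)| ≤ 2 * 3 ^ (ε * k) * (√3 / 2) ^ j * |((f.eval (n : ℤ) : ℤ) : ℝ)|

lemma Follows.mono {f : ℤ[X]} {ε ε' : ℝ} {k n : ℕ} (h : Follows f ε k n) (hε : ε ≤ ε') :
    Follows f ε' k n := by
  refine ⟨h.1, fun j hj => ?_⟩
  obtain ⟨h1, h2⟩ := h.2 j hj
  have hk : ε * k ≤ ε' * k := mul_le_mul_of_nonneg_right hε (Nat.cast_nonneg _)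
  constructor
  · refine le_trans ?_ h1
    have : (3 : ℝ) ^ (-(ε' * k)) ≤ 3 ^ (-(ε * k)) :=
      Real.rpow_le_rpow_of_exponent_le (by norm_num) (by linarith)
    gcongr
  · refine h2.trans ?_
    have : (3 : ℝ) ^ (ε * k) ≤ 3 ^ (ε' * k) :=
      Real.rpow_le_rpow_of_exponent_le (by norm_num) hk
    gcongr

lemma follows_of {f : ℤ[X]} {ε : ℝ} {k n : ℕ} (hf : (2 : ℤ) ^ (k + 1) ≤ |f.eval (n : ℤ)|)
    (hb : pv k (f.eval (n : ℤ)) ∉ Bad k (2 * ε * k)) : Follows f ε k n := by
  have hpos : f.eval (n : ℤ) ≠ 0 := by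
    intro h
    rw [h, abs_zero] at hf
    have : (0 : ℤ) < 2 ^ (k + 1) := by positivity
    linarith
  refine ⟨hpos, fun j hj => ?_⟩
  obtain ⟨h1, h2⟩ := size hj hb hf
  have e1 : Real.exp (2 * ε * k / 2 * Real.log 3) = 3 ^ (ε * k) := by
    rw [Real.rpow_def_of_pos (by norm_num)]; congr 1; ring
  have e2 : Real.exp (-(2 * ε * k / 2 * Real.log 3)) = 3 ^ (-(ε * k)) := by
    rw [Real.rpow_def_of_pos (by norm_num)]; congr 1; ring
  rw [e1] at h2
  rw [e2] at h1
  constructor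
  · refine le_trans (le_of_eq ?_) h1
    ring
  · refine h2.trans (le_of_eq ?_)
    ring

/-- a polynomial of positive degree grows at least linearly -/
lemma half_abs {f : ℤ[X]} (hd : 1 ≤ f.natDegree) :
    ∃ n1 : ℕ, ∀ n : ℕ, n1 ≤ n → (n : ℤ) ≤ 2 * |f.eval (n : ℤ)| := by
  have hf0 : f.leadingCoeff ≠ 0 := by
    intro h
    rw [Polynomial.leadingCoeff_eq_zero] at h
    rw [h] at hd
    simp at hd
  rcases lt_or_gt_of_ne hf0 with h | h
  · obtain ⟨n1, hn⟩ := half_le (f := -f) (by rw [Polynomial.natDegree_neg]; exact hd)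
      (by rw [Polynomial.leadingCoeff_neg]; linarith)
    refine ⟨n1, fun n h1 => ?_⟩
    have h2 := hn n h1
    rw [Polynomial.eval_neg] at h2
    have h3 := neg_abs_le (f.eval (n : ℤ))
    linarith
  · obtain ⟨n1, hn⟩ := half_le hd h
    refine ⟨n1, fun n h1 => ?_⟩
    have h2 := hn n h1
    have h3 := le_abs_self (f.eval (n : ℤ))
    linarith

/-- **the main estimate** -/
theorem main_est {f : ℤ[X]} (hd : 1 ≤ f.natDegree) {b : ℕ} (hbo : b % 2 = 1)
    (hb3 : 3 ≤ b) {c : ℝ} (hc : 0 < c) (hc1 : c ≤ 1) {ε : ℝ} (hε : 0 < ε) (hε1 : ε ≤ 1 / 8) :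
    ∃ (r : ℕ) (δ C : ℝ), 4 ≤ r ∧ 0 < δ ∧ 0 < C ∧ ∀ (L Δ : ℕ) (ν : Fin L → Fin b → ℝ), Δ % 2 = 1 →
      Law b Δ c ν → prob ν (fun n => ¬ Follows f ε (L / r) n) ≤ C * Real.exp (-(δ * L)) := by
  classical
  obtain ⟨δ1, C1, hδ1, hC1, hcls⟩ := classes hd (η := 2 * ε) (by positivity) (by linarith)
  obtain ⟨n1, hn1⟩ := half_abs hd
  have hl2 : 0 < Real.log 2 := Real.log_pos (by norm_num)
  have hbR : (3 : ℝ) ≤ b := by exact_mod_cast hb3
  have hb0 : (0 : ℝ) < b := by linarith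
  have hb4 : 4 / (b : ℝ) ^ 4 < 1 := by
    rw [div_lt_one (by positivity)]
    calc (4 : ℝ) < 3 ^ 4 := by norm_num
      _ ≤ (b : ℝ) ^ 4 := pow_le_pow_left₀ (by norm_num) hbR 4
  have hb40 : 0 < 4 / (b : ℝ) ^ 4 := by positivity
  set ρ : ℝ := 1 - c * (4 / (b : ℝ) ^ 4) with hρ
  have hρ0 : 0 ≤ ρ := by rw [hρ]; nlinarith
  have hρ1 : ρ < 1 := by rw [hρ]; nlinarith
  obtain ⟨m, hm⟩ := exists_pow_lt_of_lt_one (show 0 < δ1 * Real.log 2 / (2 * b) by positivity) hρ1
  set r : ℕ := max m 4 with hr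
  have hr4 : 4 ≤ r := le_max_right _ _
  have hr0 : (0 : ℝ) < r := by exact_mod_cast (by omega : 0 < r)
  have hρr : b * ρ ^ (2 * r) ≤ δ1 * Real.log 2 / 2 := by
    have h1 : ρ ^ (2 * r) ≤ ρ ^ m := pow_le_pow_of_le_one hρ0 hρ1.le (by
      have := le_max_left m 4
      omega)
    have h2 := h1.trans hm.le
    calc b * ρ ^ (2 * r) ≤ b * (δ1 * Real.log 2 / (2 * b)) := mul_le_mul_of_nonneg_left h2 hb0.le
      _ = δ1 * Real.log 2 / 2 := by field_simp
  set L1 : ℕ := 16 + 2 * n1 with hL1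
  set δ : ℝ := min (c / 2) (δ1 * Real.log 2 / (4 * r)) with hδ
  have hδ0 : 0 < δ := lt_min (by positivity) (by positivity)
  have hδc : δ ≤ c / 2 := min_le_left _ _
  have hδr : δ ≤ δ1 * Real.log 2 / (4 * r) := min_le_right _ _
  set K : ℝ := √(C1 * (r * b)) * Real.exp (δ1 * Real.log 2 / 4) with hK
  have hK0 : 0 ≤ K := by positivity
  refine ⟨r, δ, Real.exp (δ * L1) + 1 + K, hr4, hδ0, by positivity, fun L Δ ν hΔo hlaw => ?_⟩
  have hΔ0 : 0 < Δ := by omega
  have hexp0 : 0 < Real.exp (-(δ * L)) := Real.exp_pos _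
  by_cases hL : L < L1
  · have h1 := prob_le_one hlaw.nonneg hlaw.one (fun n => ¬ Follows f ε (L / r) n)
    have h2 : (1 : ℝ) ≤ Real.exp (δ * L1) * Real.exp (-(δ * L)) := by
      rw [← Real.exp_add]
      apply Real.one_le_exp
      have : (L : ℝ) ≤ L1 := by exact_mod_cast hL.le
      nlinarith
    have h3 : 0 ≤ (1 + K) * Real.exp (-(δ * L)) := by positivity
    calc prob ν (fun n => ¬ Follows f ε (L / r) n) ≤ 1 := h1
      _ ≤ Real.exp (δ * L1) * Real.exp (-(δ * L)) := h2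
      _ ≤ (Real.exp (δ * L1) + 1 + K) * Real.exp (-(δ * L)) := by linarith
  push Not at hL
  obtain ⟨k, hk⟩ : ∃ k, L / r = k := ⟨_, rfl⟩
  rw [hk]
  have hrk : r * k ≤ L := by rw [← hk]; exact Nat.mul_div_le L r
  have hk4 : 4 * k ≤ L := le_trans (Nat.mul_le_mul_right k hr4) hrk
  have hkl : (L : ℝ) / r ≤ k + 1 := by
    rw [div_le_iff₀ hr0]
    have : L < (k + 1) * r := by
      rw [← hk, Nat.add_mul, one_mul]
      exact Nat.lt_div_mul_add (by omega)
    have h5 : (L : ℝ) < ((k + 1 : ℕ) : ℝ) * r := by exact_mod_cast this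
    push_cast at h5
    exact h5.le
  -- the two exceptional events
  have hsub : ∀ n, ¬ Follows f ε k n → (n < b ^ (L / 2)) ∨
      pv k (f.eval (n : ℤ)) ∈ Bad k (2 * ε * k) := by
    intro n hn
    by_contra hcon
    push Not at hcon
    obtain ⟨h1, h2⟩ := hcon
    have hb2 : 2 ≤ b := by omega
    have h3 : n1 ≤ n := by
      have e1 : n1 ≤ 2 ^ n1 := Nat.lt_two_pow_self.le
      have e2 : 2 ^ n1 ≤ 2 ^ (L / 2) := Nat.pow_le_pow_right (by norm_num) (by omega)
      have e3 : 2 ^ (L / 2) ≤ b ^ (L / 2) := Nat.pow_le_pow_left hb2 _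
      omega
    have h4 : 2 ^ (k + 2) ≤ n := by
      have e2 : 2 ^ (k + 2) ≤ 2 ^ (L / 2) := Nat.pow_le_pow_right (by norm_num) (by omega)
      have e3 : 2 ^ (L / 2) ≤ b ^ (L / 2) := Nat.pow_le_pow_left hb2 _
      omega
    have h5 := hn1 n h3
    have h6 : (2 : ℤ) ^ (k + 1) ≤ |f.eval (n : ℤ)| := by
      have : (2 : ℤ) ^ (k + 2) ≤ n := by exact_mod_cast h4
      rw [pow_succ] at this
      linarith
    exact hn (follows_of h6 h2)
  have hA : prob ν (fun n => n < b ^ (L / 2)) ≤ Real.exp (-(δ * L)) := by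
    refine (small hΔ0 hc1 hlaw (Nat.div_le_self L 2)).trans ?_
    have h1 : (1 - c) ^ (L - L / 2) ≤ (Real.exp (-c)) ^ (L - L / 2) :=
      pow_le_pow_left₀ (by linarith) (by have := Real.add_one_le_exp (-c); linarith) _
    refine h1.trans ?_
    rw [← Real.exp_nat_mul]
    apply Real.exp_le_exp.2
    have h2 : (L : ℝ) / 2 ≤ ((L - L / 2 : ℕ) : ℝ) := by
      have : L ≤ 2 * (L - L / 2) := by omega
      have h3 : (L : ℝ) ≤ 2 * ((L - L / 2 : ℕ) : ℝ) := by exact_mod_cast this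
      linarith
    have h3 : 0 ≤ (L : ℝ) := Nat.cast_nonneg _
    nlinarith
  have hB : prob ν (fun n => pv k (f.eval (n : ℤ)) ∈ Bad k (2 * ε * k)) ≤
      K * Real.exp (-(δ * L)) := by
    obtain ⟨Z, hZ, hZm⟩ := hcls k
    have h1 := meas (N := 2 ^ k) (b := b) (Δ := Δ) (L := L) (by omega)
      (Nat.Coprime.pow_right k (Nat.coprime_two_right.2 (Nat.odd_iff.2 hbo))) hΔ0
      (Nat.Coprime.pow_right k (Nat.coprime_two_right.2 (Nat.odd_iff.2 hΔo))) hc.le hc1 hlaw
      (r := r) (J := k) (by omega) (Nat.pow_le_pow_left (by omega) k) hrk Z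
      ((univ : Finset (Fin L → Fin b)).filter (fun d =>
        pv k (f.eval ((num b d : ℕ) : ℤ)) ∈ Bad k (2 * ε * k))) (by
        intro d hd
        rw [mem_filter] at hd
        exact hZm _ hd.2)
    have h2 : (prob ν (fun n => pv k (f.eval (n : ℤ)) ∈ Bad k (2 * ε * k))) ^ 2 ≤
        Z.card / ((2 ^ k : ℕ) : ℝ) * (r * (b * (1 + b * ρ ^ (2 * r)) ^ k)) := by
      rw [prob_eq (fun n => pv k (f.eval (n : ℤ)) ∈ Bad k (2 * ε * k))
        ((univ : Finset (Fin L → Fin b)).filter (fun d =>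
        pv k (f.eval ((num b d : ℕ) : ℤ)) ∈ Bad k (2 * ε * k))) (fun d => by simp)]
      exact h1
    have h3 : (Z.card : ℝ) / ((2 ^ k : ℕ) : ℝ) ≤ C1 * Real.exp (-(δ1 * Real.log 2 * k)) := by
      push_cast
      rw [div_le_iff₀ (by positivity)]
      refine hZ.trans (le_of_eq ?_)
      rw [Real.rpow_sub (by positivity), Real.rpow_one]
      have : ((2 : ℝ) ^ k) ^ δ1 = Real.exp (δ1 * Real.log 2 * k) := by
        rw [← Real.rpow_natCast, ← Real.rpow_mul (by norm_num), Real.rpow_def_of_pos (by norm_num)]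
        congr 1; ring
      rw [this, Real.exp_neg]
      field_simp
    have h4 : (1 + b * ρ ^ (2 * r)) ^ k ≤ Real.exp (δ1 * Real.log 2 / 2 * k) := by
      have e1 : 1 + b * ρ ^ (2 * r) ≤ Real.exp (δ1 * Real.log 2 / 2) := by
        have := Real.add_one_le_exp (δ1 * Real.log 2 / 2)
        linarith
      calc (1 + b * ρ ^ (2 * r)) ^ k ≤ (Real.exp (δ1 * Real.log 2 / 2)) ^ k :=
            pow_le_pow_left₀ (by positivity) e1 k
        _ = _ := by rw [← Real.exp_nat_mul]; congr 1; ring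
    have h5 : (prob ν (fun n => pv k (f.eval (n : ℤ)) ∈ Bad k (2 * ε * k))) ^ 2 ≤
        (K * Real.exp (-(δ * L))) ^ 2 := by
      refine h2.trans ?_
      calc (Z.card : ℝ) / ((2 ^ k : ℕ) : ℝ) * (r * (b * (1 + b * ρ ^ (2 * r)) ^ k))
          ≤ (C1 * Real.exp (-(δ1 * Real.log 2 * k))) * (r * (b * Real.exp (δ1 * Real.log 2 / 2 * k))) := by
            apply mul_le_mul h3 _ (by positivity) (by positivity)
            gcongr
        _ = C1 * (r * b) * Real.exp (-(δ1 * Real.log 2 / 2 * k)) := by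
            have : Real.exp (-(δ1 * Real.log 2 / 2 * k)) =
                Real.exp (-(δ1 * Real.log 2 * k)) * Real.exp (δ1 * Real.log 2 / 2 * k) := by
              rw [← Real.exp_add]; congr 1; ring
            rw [this]; ring
        _ ≤ C1 * (r * b) * Real.exp (δ1 * Real.log 2 / 2 - 2 * (δ * L)) := by
            apply mul_le_mul_of_nonneg_left _ (by positivity)
            apply Real.exp_le_exp.2
            have e1 : 2 * (δ * L) ≤ 2 * (δ1 * Real.log 2 / (4 * r) * L) := by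
              have : (0 : ℝ) ≤ L := Nat.cast_nonneg _
              have := mul_le_mul_of_nonneg_right hδr this
              linarith
            have e2 : 2 * (δ1 * Real.log 2 / (4 * r) * L) = δ1 * Real.log 2 / 2 * (L / r) := by
              field_simp; ring
            have e3 : δ1 * Real.log 2 / 2 * (L / r) ≤ δ1 * Real.log 2 / 2 * (k + 1) :=
              mul_le_mul_of_nonneg_left hkl (by positivity)
            linarith
        _ = (K * Real.exp (-(δ * L))) ^ 2 := by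
            rw [hK, mul_pow, mul_pow, Real.sq_sqrt (by positivity), ← Real.exp_nat_mul, ← Real.exp_nat_mul,
              mul_assoc (C1 * (r * b)), ← Real.exp_add]
            congr 2
            push_cast
            ring
    exact (sq_le_sq₀ (prob_nonneg hlaw.nonneg _) (by positivity)).1 h5
  have h0 : 0 ≤ Real.exp (δ * L1) * Real.exp (-(δ * L)) := by positivity
  calc prob ν (fun n => ¬ Follows f ε k n)
      ≤ prob ν (fun n => (n < b ^ (L / 2)) ∨
        (pv k (f.eval (n : ℤ)) ∈ Bad k (2 * ε * k))) := prob_mono hlaw.nonneg hsub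
    _ ≤ _ + _ := prob_or hlaw.nonneg _ _
    _ ≤ Real.exp (-(δ * L)) + K * Real.exp (-(δ * L)) := add_le_add hA hB
    _ ≤ (Real.exp (δ * L1) + 1 + K) * Real.exp (-(δ * L)) := by linarith

/-- the Collatz orbit of `f n` has a term at most `|f n| ^ s` in absolute value -/
def Falls (f : ℤ[X]) (s : ℝ) (n : ℕ) : Prop :=
  f.eval (n : ℤ) ≠ 0 ∧ ∃ k : ℕ, |(Col^[k] (f.eval (n : ℤ)) : ℝ)| ≤ |((f.eval (n : ℤ) : ℤ) : ℝ)| ^ s

theorem falls_est {f : ℤ[X]} (hd : 1 ≤ f.natDegree) {b : ℕ} (hbo : b % 2 = 1)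
    (hb3 : 3 ≤ b) {c : ℝ} (hc : 0 < c) (hc1 : c ≤ 1) :
    ∃ κ δ C : ℝ, 0 < κ ∧ 0 < δ ∧ 0 < C ∧ ∀ (L Δ : ℕ) (ν : Fin L → Fin b → ℝ), Δ % 2 = 1 →
      Law b Δ c ν → prob ν (fun n => ¬ Falls f (1 - κ) n) ≤ C * Real.exp (-(δ * L)) := by
  classical
  obtain ⟨r, δ, C, hr, hδ, hC, h⟩ := main_est hd hbo hb3 hc hc1 (ε := 1 / 16) (by norm_num) (by norm_num)
  obtain ⟨G0, hG01, hG0⟩ := growth f
  obtain ⟨G1, hG11, hG1'⟩ := growth (-f)
  obtain ⟨G, hGd⟩ : ∃ G : ℝ, G = G0 + G1 + |((f.eval (0 : ℤ) : ℤ) : ℝ)| := ⟨_, rfl⟩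
  have hab : 0 ≤ |((f.eval (0 : ℤ) : ℤ) : ℝ)| := abs_nonneg _
  have hG1 : 1 ≤ G := by rw [hGd]; linarith
  set q : ℝ := (3 : ℝ) ^ (1 / 16 : ℝ) * (√3 / 2) with hq
  have hq0 : 0 < q := by positivity
  have hq1 : q < 1 := Pool.Agent.X17.MD.q_lt
  have hlq : 0 < Real.log (1 / q) := Real.log_pos (by rw [lt_div_iff₀ hq0]; linarith)
  have hbR : (3 : ℝ) ≤ b := by exact_mod_cast hb3
  have hlb : 0 < Real.log b := Real.log_pos (by linarith)
  have hr0 : (0 : ℝ) < r := by exact_mod_cast (by omega : 0 < r)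
  have hd0 : (0 : ℝ) < f.natDegree := by exact_mod_cast (by omega : 0 < f.natDegree)
  set κ : ℝ := Real.log (1 / q) / (2 * r * f.natDegree * Real.log b) with hκ
  have hκ0 : 0 < κ := by positivity
  -- large `L`
  obtain ⟨L2, hL2⟩ : ∃ L2 : ℕ, ∀ L : ℕ, L2 ≤ L →
      Real.log 2 + Real.log (1 / q) + κ * Real.log G ≤ Real.log (1 / q) / (2 * r) * L := by
    obtain ⟨M, hM⟩ := exists_nat_ge ((Real.log 2 + Real.log (1 / q) + κ * Real.log G) / (Real.log (1 / q) / (2 * r)))
    refine ⟨M, fun L hL => ?_⟩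
    rw [div_le_iff₀ (by positivity)] at hM
    have : (M : ℝ) ≤ L := by exact_mod_cast hL
    have h2 : (M : ℝ) * (Real.log (1 / q) / (2 * r)) ≤ L * (Real.log (1 / q) / (2 * r)) :=
      mul_le_mul_of_nonneg_right this (by positivity)
    linarith
  refine ⟨κ, δ, Real.exp (δ * L2) + C, hκ0, hδ, by positivity, fun L Δ ν hΔ hlaw => ?_⟩
  by_cases hL : L < L2
  · have h1 := prob_le_one hlaw.nonneg hlaw.one (fun n => ¬ Falls f (1 - κ) n)
    have h2 : (1 : ℝ) ≤ Real.exp (δ * L2) * Real.exp (-(δ * L)) := by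
      rw [← Real.exp_add]
      apply Real.one_le_exp
      have : (L : ℝ) ≤ L2 := by exact_mod_cast hL.le
      nlinarith
    have h3 : 0 ≤ C * Real.exp (-(δ * L)) := by positivity
    linarith
  push Not at hL
  have hL3 := hL2 L hL
  obtain ⟨k, hk⟩ : ∃ k, L / r = k := ⟨_, rfl⟩
  have hkl : (L : ℝ) / r ≤ k + 1 := by
    rw [div_le_iff₀ hr0]
    have : L < (k + 1) * r := by
      rw [← hk, Nat.add_mul, one_mul]
      exact Nat.lt_div_mul_add (by omega)
    have h5 : (L : ℝ) < ((k + 1 : ℕ) : ℝ) * r := by exact_mod_cast this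
    push_cast at h5
    exact h5.le
  have hpt : ∀ d : Fin L → Fin b, Follows f (1 / 16) (L / r) (num b d) → Falls f (1 - κ) (num b d) := by
    intro d hF
    rw [hk] at hF
    obtain ⟨hpos, hF⟩ := hF
    refine ⟨hpos, ?_⟩
    obtain ⟨o, ho⟩ := iter_T k (f.eval ((num b d : ℕ) : ℤ))
    refine ⟨o, ?_⟩
    rw [← ho]
    obtain ⟨-, h2⟩ := hF k le_rfl
    obtain ⟨y, hy⟩ : ∃ y : ℝ, |((f.eval ((num b d : ℕ) : ℤ) : ℤ) : ℝ)| = y := ⟨_, rfl⟩
    rw [hy] at h2 ⊢
    have hy1 : 1 ≤ y := by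
      rw [← hy]
      have := Int.one_le_abs hpos
      exact_mod_cast this
    have hy0 : 0 < y := by linarith
    refine h2.trans ?_
    have e1 : 2 * (3 : ℝ) ^ (1 / 16 * (k : ℝ)) * (√3 / 2) ^ k * y = 2 * q ^ k * y := by
      rw [hq, mul_pow, Real.rpow_mul (by norm_num), Real.rpow_natCast]; ring
    rw [e1, Real.rpow_sub hy0, Real.rpow_one, le_div_iff₀ (Real.rpow_pos_of_pos hy0 _)]
    have e2 : 2 * q ^ k * y ^ κ ≤ 1 := by
        have h3 : y ≤ G * (b : ℝ) ^ (L * f.natDegree) := by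
          by_cases hn : 1 ≤ num b d
          · have hpw : ((num b d : ℕ) : ℝ) ^ f.natDegree ≤ (b : ℝ) ^ (L * f.natDegree) := by
              have : (num b d : ℝ) ≤ (b : ℝ) ^ L := by
                exact_mod_cast (Pool.Agent.X17.MD.num_lt (by omega) d).le
              rw [pow_mul]
              exact pow_le_pow_left₀ (Nat.cast_nonneg _) this _
            have hp0 : (0 : ℝ) ≤ ((num b d : ℕ) : ℝ) ^ f.natDegree := by positivity
            have g1 := hG0 _ hn
            have g2 := hG1' _ hn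
            rw [Polynomial.eval_neg, Polynomial.natDegree_neg] at g2
            push_cast at g2
            have g3 : y ≤ (G0 + G1) * ((num b d : ℕ) : ℝ) ^ f.natDegree := by
              rw [← hy]
              apply abs_le.2
              constructor
              · nlinarith
              · nlinarith
            refine g3.trans ?_
            apply mul_le_mul (by rw [hGd]; linarith) hpw hp0 (by linarith)
          · have h0 : num b d = 0 := by omega
            rw [h0] at hy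
            have h1 : y ≤ |((f.eval (0 : ℤ) : ℤ) : ℝ)| := by
              rw [← hy]; simp only [Nat.cast_zero]; exact le_rfl
            have h2 : (1 : ℝ) ≤ (b : ℝ) ^ (L * f.natDegree) := one_le_pow₀ (by linarith)
            have h3 : G * 1 ≤ G * (b : ℝ) ^ (L * f.natDegree) :=
              mul_le_mul_of_nonneg_left h2 (by linarith)
            linarith
        have h4 : Real.log y ≤ Real.log G + L * f.natDegree * Real.log b := by
          have h5 := Real.log_le_log hy0 h3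
          rw [Real.log_mul (by linarith) (by positivity), Real.log_pow] at h5
          push_cast at h5
          exact h5
        rw [← Real.exp_log (show 0 < 2 * q ^ k * y ^ κ by positivity)]
        apply Real.exp_le_one_iff.2
        rw [Real.log_mul (by positivity) (by positivity), Real.log_mul (by norm_num) (by positivity),
          Real.log_pow, Real.log_rpow hy0]
        have h6 : Real.log q = -Real.log (1 / q) := by rw [one_div, Real.log_inv]; ring
        rw [h6]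
        have h7 : κ * Real.log y ≤ κ * Real.log G + Real.log (1 / q) / (2 * r) * L := by
          have h8 := mul_le_mul_of_nonneg_left h4 hκ0.le
          have h9 : κ * (L * f.natDegree * Real.log b) = Real.log (1 / q) / (2 * r) * L := by
            rw [hκ]; field_simp
          linarith
        have h10 : Real.log (1 / q) / r * L ≤ (k + 1) * Real.log (1 / q) := by
          have := mul_le_mul_of_nonneg_right hkl hlq.le
          calc Real.log (1 / q) / r * L = L / r * Real.log (1 / q) := by ring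
            _ ≤ _ := this
        have h11 : Real.log (1 / q) / r * L = 2 * (Real.log (1 / q) / (2 * r) * L) := by
          field_simp
        linarith
    calc 2 * q ^ k * y * y ^ κ = (2 * q ^ k * y ^ κ) * y := by ring
      _ ≤ 1 * y := mul_le_mul_of_nonneg_right e2 hy0.le
      _ = y := one_mul y
  have h1 := h L Δ ν hΔ hlaw
  have h2 : prob ν (fun n => ¬ Falls f (1 - κ) n) ≤ prob ν (fun n => ¬ Follows f (1 / 16) (L / r) n) := by
    rw [prob_eq (fun n => ¬ Falls f (1 - κ) n)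
      ((univ : Finset (Fin L → Fin b)).filter (fun d => ¬ Falls f (1 - κ) (num b d))) (fun d => by simp),
      prob_eq (fun n => ¬ Follows f (1 / 16) (L / r) n)
      ((univ : Finset (Fin L → Fin b)).filter (fun d => ¬ Follows f (1 / 16) (L / r) (num b d))) (fun d => by simp)]
    apply Finset.sum_le_sum_of_subset_of_nonneg
    · intro d hd
      rw [mem_filter] at hd ⊢
      exact ⟨hd.1, fun hF => hd.2 (hpt d hF)⟩
    · intro d _ _; exact wt_nonneg hlaw.nonneg d
  have h3 : 0 ≤ Real.exp (δ * L2) * Real.exp (-(δ * L)) := by positivity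
  linarith

end Pool.Agent.X17.MZ
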