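import Pool.Agent.X17.MD.Four
import Pool.Agent.Y927.CP.F

/-! # The shortcut map on the integers: parities, classes and sizes -/

set_option autoImplicit false

namespace Pool.Agent.X17.MZ

open Finset Polynomial
open Pool.Agent.Y927.CP (S Bad sgn mem_Bad card_Bad)

/-- The shortcut map on the integers. -/
def T (n : ℤ) : ℤ := if n % 2 = 0 then n / 2 else (3 * n + 1) / 2

theorem T_even {n : ℤ} (h : n % 2 = 0) : 2 * T n = n := by
  unfold T; rw [if_pos h]; omega

theorem T_odd {n : ℤ} (h : n % 2 = 1) : 2 * T n = 3 * n + 1 := by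
  unfold T; rw [if_neg (by omega)]; omega

/-- The parities of the first `k` terms determine the number modulo `2 ^ k`. -/
theorem mod_of_par (k : ℕ) : ∀ x y : ℤ, (∀ i < k, T^[i] x % 2 = T^[i] y % 2) → (2 : ℤ) ^ k ∣ y - x := by
  induction k with
  | zero => intro x y _; simp
  | succ k ih =>
    intro x y h
    have h0 : x % 2 = y % 2 := h 0 (Nat.succ_pos k)
    have h1 : (2 : ℤ) ^ k ∣ T y - T x := by
      apply ih
      intro i hi
      have := h (i + 1) (by omega)
      rwa [Function.iterate_succ_apply, Function.iterate_succ_apply] at this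
    have h2 : (2 : ℤ) ^ (k + 1) ∣ 2 * T y - 2 * T x := by
      have : 2 * T y - 2 * T x = 2 * (T y - T x) := by ring
      rw [this, pow_succ']
      exact mul_dvd_mul_left 2 h1
    rcases Int.emod_two_eq_zero_or_one x with hx | hx
    · rw [T_even hx, T_even (h0 ▸ hx)] at h2
      exact h2
    · rw [T_odd hx, T_odd (h0 ▸ hx)] at h2
      have e : 3 * y + 1 - (3 * x + 1) = 3 * (y - x) := by ring
      rw [e] at h2
      refine IsCoprime.dvd_of_dvd_mul_left ?_ h2
      apply IsCoprime.pow_left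
      exact ⟨-1, 1, by norm_num⟩

/-- congruent numbers have the same parities -/
theorem par_of_mod (k : ℕ) : ∀ x y : ℤ, (2 : ℤ) ^ k ∣ y - x → ∀ i < k, T^[i] x % 2 = T^[i] y % 2 := by
  induction k with
  | zero => intro x y _ i hi; omega
  | succ k ih =>
    intro x y h i hi
    have h0 : x % 2 = y % 2 := by
      have : (2 : ℤ) ∣ y - x := (dvd_pow_self 2 (by omega)).trans h
      omega
    cases i with
    | zero => exact h0
    | succ i =>
      rw [Function.iterate_succ_apply, Function.iterate_succ_apply]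
      apply ih _ _ _ i (by omega)
      have h2 : (2 : ℤ) * 2 ^ k ∣ 2 * (T y - T x) := by
        rw [← pow_succ']
        rcases Int.emod_two_eq_zero_or_one x with hx | hx
        · have e : 2 * (T y - T x) = y - x := by
            rw [mul_sub, T_even hx, T_even (h0 ▸ hx)]
          rw [e]; exact h
        · have e : 2 * (T y - T x) = 3 * (y - x) := by
            rw [mul_sub, T_odd hx, T_odd (h0 ▸ hx)]; ring
          rw [e]; exact h.mul_left 3
      exact (mul_dvd_mul_iff_left (by norm_num)).1 h2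

/-- The number of the odd terms among the first `j` terms. -/
def od (j : ℕ) (x : ℤ) : ℕ := ∑ i ∈ Finset.range j, (T^[i] x % 2).toNat

theorem od_succ (j : ℕ) (x : ℤ) : od (j + 1) x = od j x + (T^[j] x % 2).toNat := by
  unfold od; rw [Finset.sum_range_succ]

/-- the terms of the trajectory -/
theorem form (j : ℕ) (x : ℤ) : ∃ ρ : ℤ, 0 ≤ ρ ∧ ρ ≤ 3 ^ od j x * (2 ^ j - 1) ∧
    2 ^ j * T^[j] x = 3 ^ od j x * x + ρ := by
  induction j with
  | zero => exact ⟨0, le_rfl, by simp, by simp [od]⟩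
  | succ j ih =>
    obtain ⟨ρ, h1, h2, h3⟩ := ih
    have h4 : (1 : ℤ) ≤ 3 ^ od j x := one_le_pow₀ (by norm_num)
    have h5 : (1 : ℤ) ≤ 2 ^ j := one_le_pow₀ (by norm_num)
    rw [od_succ, Function.iterate_succ_apply']
    rcases Int.emod_two_eq_zero_or_one (T^[j] x) with h | h
    · refine ⟨ρ, h1, ?_, ?_⟩
      · rw [h]
        simp only [Int.toNat_zero, add_zero]
        refine h2.trans ?_
        apply mul_le_mul_of_nonneg_left _ (by linarith)
        have : (2 : ℤ) ^ (j + 1) = 2 ^ j * 2 := pow_succ 2 j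
        linarith
      · rw [h, pow_succ, mul_assoc, T_even h, h3]
        simp
    · refine ⟨3 * ρ + 2 ^ j, by positivity, ?_, ?_⟩
      · rw [h]
        have e : (1 : ℤ).toNat = 1 := rfl
        rw [e, pow_succ 3, pow_succ 2 j]
        nlinarith
      · rw [h, pow_succ, mul_assoc, T_odd h]
        have e : (1 : ℤ).toNat = 1 := rfl
        rw [e, pow_succ 3]
        linear_combination 3 * h3

/-- The parities of the first `k` terms. -/
def pv (k : ℕ) (x : ℤ) (i : Fin k) : Bool := decide (T^[(i : ℕ)] x % 2 = 1)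

theorem dvd_of_pv {k : ℕ} {x y : ℤ} (h : pv k x = pv k y) : (2 : ℤ) ^ k ∣ y - x := by
  apply mod_of_par
  intro i hi
  have h1 := congrFun h ⟨i, hi⟩
  unfold pv at h1
  simp only at h1
  have h4 : T^[i] x % 2 = 1 ↔ T^[i] y % 2 = 1 := by
    simpa using h1
  omega

theorem pv_congr {k : ℕ} {x y : ℤ} (h : (2 : ℤ) ^ k ∣ y - x) : pv k x = pv k y := by
  funext i
  unfold pv
  rw [par_of_mod k x y h i i.2]

theorem S_pv {k j : ℕ} (hj : j ≤ k) (x : ℤ) : S j (pv k x) = 2 * od j x - j := by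
  unfold S
  have h1 : ∀ i : Fin k, (if (i : ℕ) < j then sgn (pv k x i) else 0) =
      (fun n : ℕ => if n < j then (2 * (((T^[n] x % 2).toNat : ℕ) : ℝ) - 1) else 0) i := by
    intro i
    simp only
    by_cases h : (i : ℕ) < j
    · rw [if_pos h, if_pos h]
      unfold sgn pv
      rcases Int.emod_two_eq_zero_or_one (T^[(i : ℕ)] x) with h2 | h2
      · simp [h2]
      · simp [h2]; norm_num
    · rw [if_neg h, if_neg h]
  rw [Finset.sum_congr rfl (fun i _ => h1 i)]
  rw [Fin.sum_univ_eq_sum_range (fun n : ℕ => if n < j then (2 * (((T^[n] x % 2).toNat : ℕ) : ℝ) - 1) else 0) k]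
  rw [← Finset.sum_filter]
  have h2 : (Finset.range k).filter (fun n => n < j) = Finset.range j := by
    ext n
    simp only [Finset.mem_filter, Finset.mem_range]
    omega
  rw [h2, Finset.sum_sub_distrib, ← Finset.mul_sum]
  unfold od
  push_cast
  simp

/-- **the size of the terms** -/
theorem size {k j : ℕ} {x : ℤ} (hj : j ≤ k) {lam : ℝ} (hb : pv k x ∉ Bad k lam) (hx : (2 : ℤ) ^ (k + 1) ≤ |x|) :
    (√3 / 2) ^ j * Real.exp (-(lam / 2 * Real.log 3)) * (|(x : ℝ)| / 2) ≤ |(T^[j] x : ℝ)| ∧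
    |(T^[j] x : ℝ)| ≤ (√3 / 2) ^ j * Real.exp (lam / 2 * Real.log 3) * (2 * |(x : ℝ)|) := by
  have h1 : |S j (pv k x)| ≤ lam := by
    by_contra h
    push Not at h
    exact hb (mem_Bad.2 ⟨j, hj, h⟩)
  rw [S_pv hj, abs_le] at h1
  have hl3 : 0 < Real.log 3 := Real.log_pos (by norm_num)
  have e3 : ((3 : ℝ) ^ od j x) = Real.exp (od j x * Real.log 3) := by
    rw [Real.exp_nat_mul, Real.exp_log (by norm_num)]
  have es : (√3 : ℝ) ^ j = Real.exp ((j / 2 : ℝ) * Real.log 3) := by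
    have : (√3 : ℝ) = Real.exp (1 / 2 * Real.log 3) := by
      rw [Real.sqrt_eq_rpow, Real.rpow_def_of_pos (by norm_num)]
      congr 1; ring
    rw [this, ← Real.exp_nat_mul]
    congr 1; ring
  have h2j : (0 : ℝ) < 2 ^ j := by positivity
  obtain ⟨ρ, hρ0, hρ1, hρ⟩ := form j x
  have hR : (2 : ℝ) ^ j * (T^[j] x : ℝ) = 3 ^ od j x * x + ρ := by exact_mod_cast hρ
  have hR0 : (0 : ℝ) ≤ ρ := by exact_mod_cast hρ0
  have hR1 : (ρ : ℝ) ≤ 3 ^ od j x * (2 ^ j - 1) := by exact_mod_cast hρ1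
  have hxR : (2 : ℝ) ^ (k + 1) ≤ |(x : ℝ)| := by exact_mod_cast hx
  have h2jk : 2 * (2 : ℝ) ^ j ≤ |(x : ℝ)| := by
    have : (2 : ℝ) ^ (j + 1) ≤ 2 ^ (k + 1) := pow_le_pow_right₀ (by norm_num) (by omega)
    rw [pow_succ] at this
    linarith
  have h3p : (0 : ℝ) < 3 ^ od j x := by positivity
  have hρ2 : (ρ : ℝ) ≤ 3 ^ od j x * (|(x : ℝ)| / 2) := by
    refine hR1.trans ?_
    apply mul_le_mul_of_nonneg_left _ h3p.le
    linarith
  have habs : |(2 : ℝ) ^ j * (T^[j] x : ℝ)| = 2 ^ j * |(T^[j] x : ℝ)| := by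
    rw [abs_mul, abs_of_pos h2j]
  have hlow : (3 : ℝ) ^ od j x * (|(x : ℝ)| / 2) ≤ 2 ^ j * |(T^[j] x : ℝ)| := by
    rw [← habs, hR]
    have h4 : |(3 : ℝ) ^ od j x * x| - |(ρ : ℝ)| ≤ |(3 : ℝ) ^ od j x * x + ρ| := by
      have := abs_sub_abs_le_abs_sub ((3 : ℝ) ^ od j x * x) (-ρ)
      rwa [abs_neg, sub_neg_eq_add] at this
    rw [abs_mul, abs_of_pos h3p, abs_of_nonneg hR0] at h4
    linarith
  have hupp : 2 ^ j * |(T^[j] x : ℝ)| ≤ (3 : ℝ) ^ od j x * (2 * |(x : ℝ)|) := by
    rw [← habs, hR]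
    have h4 := abs_add_le ((3 : ℝ) ^ od j x * x) ρ
    rw [abs_mul, abs_of_pos h3p, abs_of_nonneg hR0] at h4
    have h5 : 0 ≤ (3 : ℝ) ^ od j x * |(x : ℝ)| := by positivity
    linarith
  constructor
  · rw [div_pow, es, div_mul_eq_mul_div, div_mul_eq_mul_div, div_le_iff₀ h2j, ← Real.exp_add]
    calc Real.exp ((j / 2 : ℝ) * Real.log 3 + -(lam / 2 * Real.log 3)) * (|(x : ℝ)| / 2)
        ≤ Real.exp (od j x * Real.log 3) * (|(x : ℝ)| / 2) := by
          apply mul_le_mul_of_nonneg_right _ (by positivity)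
          apply Real.exp_le_exp.2
          nlinarith [h1.1, h1.2]
      _ = 3 ^ od j x * (|(x : ℝ)| / 2) := by rw [e3]
      _ ≤ 2 ^ j * |(T^[j] x : ℝ)| := hlow
      _ = |(T^[j] x : ℝ)| * 2 ^ j := mul_comm _ _
  · rw [div_pow, es, div_mul_eq_mul_div, div_mul_eq_mul_div, le_div_iff₀ h2j, ← Real.exp_add]
    calc |(T^[j] x : ℝ)| * 2 ^ j = 2 ^ j * |(T^[j] x : ℝ)| := mul_comm _ _
      _ ≤ 3 ^ od j x * (2 * |(x : ℝ)|) := hupp
      _ = Real.exp (od j x * Real.log 3) * (2 * |(x : ℝ)|) := by rw [e3]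
      _ ≤ Real.exp ((j / 2 : ℝ) * Real.log 3 + lam / 2 * Real.log 3) * (2 * |(x : ℝ)|) := by
          apply mul_le_mul_of_nonneg_right _ (by positivity)
          apply Real.exp_le_exp.2
          nlinarith [h1.1, h1.2]

/-- The Collatz map on the integers. -/
def Col (n : ℤ) : ℤ := if n % 2 = 0 then n / 2 else 3 * n + 1

/-- the terms of the orbit under `T` are terms of the Collatz orbit -/
theorem iter_T (k : ℕ) : ∀ n : ℤ, ∃ o : ℕ, T^[k] n = Col^[o] n := by
  induction k with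
  | zero => intro n; exact ⟨0, rfl⟩
  | succ k ih =>
    intro n
    by_cases h : n % 2 = 0
    · obtain ⟨o, ho⟩ := ih (n / 2)
      refine ⟨o + 1, ?_⟩
      have e1 : T n = n / 2 := by unfold T; rw [if_pos h]
      have e2 : Col n = n / 2 := by unfold Col; rw [if_pos h]
      rw [Function.iterate_succ_apply, Function.iterate_succ_apply, e1, e2, ho]
    · obtain ⟨o, ho⟩ := ih ((3 * n + 1) / 2)
      refine ⟨o + 2, ?_⟩
      have e1 : T n = (3 * n + 1) / 2 := by unfold T; rw [if_neg h]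
      have e2 : Col n = 3 * n + 1 := by unfold Col; rw [if_neg h]
      have e3 : Col (3 * n + 1) = (3 * n + 1) / 2 := by unfold Col; rw [if_pos (by omega)]
      rw [Function.iterate_succ_apply, Function.iterate_succ_apply, Function.iterate_succ_apply,
        e1, e2, e3, ho]

end Pool.Agent.X17.MZ
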