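import Pool.Agent.X17.MZ.A

/-! # The classes modulo `2 ^ k` of the arguments of a polynomial with unbalanced parities -/

set_option autoImplicit false

namespace Pool.Agent.X17.MZ

open Finset Polynomial
open Pool.Agent.Y927.CP (S Bad sgn mem_Bad card_Bad rigid count1)

/-- The number of the `n` in `(X, X + N]` such that `2 ^ j` does not divide `f' n` and the parities of
`f n` are in `V`. -/
theorem count2 {f : ℤ[X]} {k j X N : ℕ} (hjk : j ≤ k) (hN : N ≤ 2 ^ (k + 1)) (V : Finset (Fin k → Bool)) :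
    ((Ioc X (X + N)).filter (fun n : ℕ => ¬ ((2 : ℤ) ^ j) ∣ f.derivative.eval (n : ℤ) ∧
      pv k (f.eval (n : ℤ)) ∈ V)).card ≤ V.card * (2 ^ j * (2 ^ (j + 1) + 1)) := by
  classical
  have h0 : (V ×ˢ (range (2 ^ j) ×ˢ range (2 ^ (j + 1) + 1))).card =
      V.card * (2 ^ j * (2 ^ (j + 1) + 1)) := by
    rw [card_product, card_product, card_range, card_range]
  rw [← h0]
  apply Finset.card_le_card_of_injOn
    (fun n : ℕ => (pv k (f.eval (n : ℤ)), (n % 2 ^ j, (n - X - 1) / 2 ^ (k - j))))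
  · intro n hn
    rw [mem_coe, mem_filter, mem_Ioc] at hn
    obtain ⟨⟨hn1, hn2⟩, -, hn5⟩ := hn
    rw [mem_coe, mem_product, mem_product]
    refine ⟨hn5, ?_, ?_⟩
    · rw [mem_range]
      exact Nat.mod_lt _ (by positivity)
    · rw [mem_range]
      have h2 : n - X - 1 ≤ 2 ^ (k - j) * 2 ^ (j + 1) := by
        rw [← pow_add]
        have : k - j + (j + 1) = k + 1 := by omega
        rw [this]
        omega
      have h3 := Nat.div_le_div_right (c := 2 ^ (k - j)) h2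
      rw [Nat.mul_div_cancel_left _ (by positivity)] at h3
      exact Nat.lt_succ_of_le h3
  · intro n hn n' hn' heq
    rw [mem_coe, mem_filter, mem_Ioc] at hn hn'
    simp only [Prod.mk.injEq] at heq
    obtain ⟨e1, e2, e3⟩ := heq
    have hmod : ((2 : ℤ) ^ k) ∣ f.eval (n' : ℤ) - f.eval (n : ℤ) := dvd_of_pv e1
    have hmodj : ((2 : ℤ) ^ j) ∣ (n' : ℤ) - n := by
      have h2 := (Nat.modEq_iff_dvd.1 (show n ≡ n' [MOD 2 ^ j] from e2))
      exact_mod_cast h2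
    have hblock : ∀ a b : ℕ, X < a → X < b → (a - X - 1) / 2 ^ (k - j) = (b - X - 1) / 2 ^ (k - j) →
        a < b → b - a < 2 ^ (k - j) := by
      intro a b ha hb hab hlt
      have h4 := Nat.div_add_mod (a - X - 1) (2 ^ (k - j))
      have h5 := Nat.div_add_mod (b - X - 1) (2 ^ (k - j))
      have h7 := Nat.mod_lt (b - X - 1) (show 0 < 2 ^ (k - j) by positivity)
      rw [hab] at h4
      generalize 2 ^ (k - j) * ((b - X - 1) / 2 ^ (k - j)) = q at h4 h5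
      omega
    rcases lt_trichotomy n n' with h | h | h
    · exfalso
      exact hn.2.1 (rigid hjk h (hblock n n' hn.1.1 hn'.1.1 e3 h) hmodj hmod)
    · exact h
    · exfalso
      exact hn'.2.1 (rigid hjk h (hblock n' n hn'.1.1 hn.1.1 e3.symm h)
        (by have := (dvd_neg.2 hmodj); rwa [neg_sub] at this)
        (by have := (dvd_neg.2 hmod); rwa [neg_sub] at this))

theorem count {f : ℤ[X]} (hd : 1 ≤ f.natDegree) {ε : ℝ} (hε : 0 < ε) (hε1 : ε ≤ 1) :
    ∃ δ C : ℝ, 0 < δ ∧ δ < 1 ∧ 0 < C ∧ ∀ k : ℕ,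
      (((Ioc 0 (0 + 2 ^ k)).filter (fun n : ℕ => pv k (f.eval (n : ℤ)) ∈ Bad k (ε * k / 4))).card : ℝ) ≤
        C * (2 : ℝ) ^ ((k : ℝ) * (1 - δ)) := by
  classical
  set g : ℤ[X] := f.derivative with hg
  have hg0 : g ≠ 0 := by
    intro h
    have := Polynomial.derivative_eq_zero.1 h
    omega
  obtain ⟨m, hm⟩ : ∃ m, g.natDegree = m := ⟨_, rfl⟩
  set a : ℕ := g.leadingCoeff.natAbs with ha
  have ha1 : |g.leadingCoeff| < 2 ^ a := by
    rw [Int.abs_eq_natAbs, ← ha]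
    exact_mod_cast Nat.lt_two_pow_self
  set M : ℕ := (m + 1) * (m + 1) with hM
  have hM1 : 1 ≤ M := Nat.one_le_iff_ne_zero.2 (by positivity)
  have hM1r : (1 : ℝ) ≤ M := by exact_mod_cast hM1
  set θ : ℝ := ε ^ 2 / 128 with hθ
  have hθ0 : 0 < θ := by positivity
  have hε2 : ε ^ 2 ≤ ε := by nlinarith
  have hθ1 : θ ≤ 1 / 128 := by rw [hθ]; linarith
  set δ : ℝ := θ / M with hδ
  have hδ0 : 0 < δ := by positivity
  have hδθ : δ ≤ θ := by rw [hδ]; exact div_le_self hθ0.le hM1r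
  have hδ1 : δ < 1 := by linarith
  set Y0 : ℝ := (2 : ℝ) ^ (((a : ℝ) + 1) / θ) with hY0
  have hY0p : 0 < Y0 := by positivity
  refine ⟨δ, m * (2 ^ (a + 3) + 1) + 768 / ε ^ 2 + Y0, hδ0, hδ1, by positivity, ?_⟩
  intro k
  have hk0 : (0 : ℝ) ≤ k := Nat.cast_nonneg _
  have hY1δ : 1 ≤ (2 : ℝ) ^ ((k : ℝ) * (1 - δ)) :=
    Real.one_le_rpow (by norm_num) (mul_nonneg hk0 (by linarith))
  have hE0 : (0 : ℝ) ≤ m * (2 ^ (a + 3) + 1) + 768 / ε ^ 2 := by positivity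
  by_cases hka : (a : ℝ) + 1 ≤ θ * k
  swap
  · push Not at hka
    have h1 : (((Ioc 0 (0 + 2 ^ k)).filter (fun n : ℕ => pv k (f.eval (n : ℤ)) ∈ Bad k (ε * k / 4))).card : ℝ) ≤ 2 ^ k := by
      have h2 := Finset.card_le_card (Finset.filter_subset (fun n : ℕ => pv k (f.eval (n : ℤ)) ∈ Bad k (ε * k / 4))
        (Ioc 0 (0 + 2 ^ k)))
      rw [Nat.card_Ioc, Nat.add_sub_cancel_left] at h2
      exact_mod_cast h2
    have h2 : (2 : ℝ) ^ k ≤ Y0 := by
      rw [hY0, ← Real.rpow_natCast]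
      apply Real.rpow_le_rpow_of_exponent_le (by norm_num)
      rw [le_div_iff₀ hθ0]; linarith
    calc _ ≤ (2 : ℝ) ^ k := h1
      _ ≤ Y0 := h2
      _ = Y0 * 1 := (mul_one _).symm
      _ ≤ Y0 * (2 : ℝ) ^ ((k : ℝ) * (1 - δ)) := mul_le_mul_of_nonneg_left hY1δ hY0p.le
      _ ≤ (m * (2 ^ (a + 3) + 1) + 768 / ε ^ 2 + Y0) * (2 : ℝ) ^ ((k : ℝ) * (1 - δ)) := by
          apply mul_le_mul_of_nonneg_right _ (by positivity)
          linarith
  have ha0 : (0 : ℝ) ≤ a := Nat.cast_nonneg _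
  set j0 : ℕ := ⌊θ * k⌋₊ with hj0
  have hj0a : a + 1 ≤ j0 := by
    rw [hj0]; apply Nat.le_floor; push_cast; exact hka
  have hj0u : (j0 : ℝ) ≤ θ * k := Nat.floor_le (by positivity)
  have hj0l : θ * k < j0 + 1 := Nat.lt_floor_add_one _
  have hj0k : j0 ≤ k := by
    have h1 : (j0 : ℝ) ≤ k := by
      calc (j0 : ℝ) ≤ θ * k := hj0u
        _ ≤ 1 * k := by apply mul_le_mul_of_nonneg_right _ hk0; linarith
        _ = k := one_mul _
    exact_mod_cast h1
  have hk1' : 1 ≤ k := by omega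
  have hkpos : (0 : ℝ) < k := by exact_mod_cast hk1'
  set l : ℕ := (j0 - a) / M with hl
  set V := Bad k (ε * k / 4) with hV
  -- the two exceptional sets
  obtain ⟨N, hN⟩ : ∃ N : ℕ, 2 ^ k = N := ⟨_, rfl⟩
  have hNR : (N : ℝ) = 2 ^ k := by rw [← hN]; push_cast; rfl
  rw [hN]
  set E1 := (Ioc 0 (0 + N)).filter (fun n : ℕ => ((2 : ℤ) ^ j0) ∣ g.eval (n : ℤ)) with hE1
  set E2 := (Ioc 0 (0 + N)).filter (fun n : ℕ => ¬ ((2 : ℤ) ^ j0) ∣ g.eval (n : ℤ) ∧
      pv k (f.eval (n : ℤ)) ∈ V) with hE2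
  have hsub : (Ioc 0 (0 + N)).filter (fun n : ℕ => pv k (f.eval (n : ℤ)) ∈ V) ⊆ E1 ∪ E2 := by
    intro n hn
    rw [mem_filter] at hn
    rw [mem_union]
    by_cases h1 : ((2 : ℤ) ^ j0) ∣ g.eval (n : ℤ)
    · left; rw [hE1, mem_filter]; exact ⟨hn.1, h1⟩
    · right
      rw [hE2, mem_filter]
      exact ⟨hn.1, h1, hn.2⟩
  have hcard := (Finset.card_le_card hsub).trans (Finset.card_union_le _ _)
  -- `E1`
  have hB1 : (E1.card : ℝ) ≤ m * (2 ^ (a + 3) + 1) * (2 : ℝ) ^ ((k : ℝ) * (1 - δ)) := by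
    have hD : (((2 ^ l : ℕ) : ℤ)) ^ ((m + 1) * (m + 1)) * |g.leadingCoeff| < 2 ^ j0 := by
      have h1 : l * M ≤ j0 - a := Nat.div_mul_le_self _ _
      calc (((2 ^ l : ℕ) : ℤ)) ^ ((m + 1) * (m + 1)) * |g.leadingCoeff|
          < (((2 ^ l : ℕ) : ℤ)) ^ ((m + 1) * (m + 1)) * 2 ^ a :=
            mul_lt_mul_of_pos_left ha1 (by positivity)
        _ = (2 : ℤ) ^ (l * M + a) := by
            push_cast
            rw [← pow_mul, ← pow_add]
        _ ≤ 2 ^ j0 := pow_le_pow_right₀ (by norm_num) (by omega)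
    have h1 := count1 hg0 hm (L := 2 ^ l) Nat.one_le_two_pow hD 0 N
    have h2 : (E1.card : ℝ) ≤ m * (((N / 2 ^ l : ℕ) : ℝ) + 1) := by exact_mod_cast h1
    have h3 : ((N / 2 ^ l : ℕ) : ℝ) ≤ 2 ^ (a + 3) * (2 : ℝ) ^ ((k : ℝ) * (1 - δ)) := by
      have h4 : ((N / 2 ^ l : ℕ) : ℝ) ≤ (N : ℝ) / 2 ^ l := by
        have := Nat.cast_div_le (α := ℝ) (m := N) (n := 2 ^ l)
        push_cast at this
        exact this
      have h6 : (N : ℝ) / 2 ^ l ≤ 2 ^ (k + 1) / 2 ^ l := by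
        rw [hNR]
        have : (2 : ℝ) ^ k ≤ 2 ^ (k + 1) := pow_le_pow_right₀ (by norm_num) (by omega)
        exact div_le_div_of_nonneg_right this (by positivity)
      have h7 : (2 : ℝ) ^ (k + 1) / 2 ^ l = (2 : ℝ) ^ (((k : ℝ) + 1) - l) := by
        rw [Real.rpow_sub (by norm_num), Real.rpow_natCast]
        congr 1
        rw [← Real.rpow_natCast]; push_cast; rfl
      have h8 : ((k : ℝ) + 1) - l ≤ ((a : ℝ) + 3) + k * (1 - δ) := by
        have h9 : j0 - a < (l + 1) * M := by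
          have := Nat.lt_div_mul_add (a := j0 - a) (b := M) (by omega)
          rw [← hl] at this
          linarith [this, Nat.add_mul l 1 M]
        have h10 : (j0 : ℝ) - a < ((l : ℝ) + 1) * M := by
          have : ((j0 - a : ℕ) : ℝ) < (((l + 1) * M : ℕ) : ℝ) := by exact_mod_cast h9
          rw [Nat.cast_sub (by omega)] at this
          push_cast at this
          exact this
        have h11 : θ * k - 1 - a < ((l : ℝ) + 1) * M := by linarith
        have hMp : (0 : ℝ) < M := by linarith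
        have h12 : (θ * k - 1 - a) / M < (l : ℝ) + 1 := by rwa [div_lt_iff₀ hMp]
        have h13 : (θ * k - 1 - a) / M = δ * k - (1 + a) / M := by
          rw [hδ]; field_simp; ring
        have h14 : (1 + (a : ℝ)) / M ≤ 1 + a := div_le_self (by linarith) hM1r
        linarith
      calc ((N / 2 ^ l : ℕ) : ℝ) ≤ (N : ℝ) / 2 ^ l := h4
        _ ≤ 2 ^ (k + 1) / 2 ^ l := h6
        _ = (2 : ℝ) ^ (((k : ℝ) + 1) - l) := h7
        _ ≤ (2 : ℝ) ^ (((a : ℝ) + 3) + k * (1 - δ)) :=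
            Real.rpow_le_rpow_of_exponent_le (by norm_num) h8
        _ = 2 ^ (a + 3) * (2 : ℝ) ^ ((k : ℝ) * (1 - δ)) := by
            rw [Real.rpow_add (by norm_num)]
            congr 1
            rw [← Real.rpow_natCast]; push_cast; rfl
    calc (E1.card : ℝ) ≤ m * (((N / 2 ^ l : ℕ) : ℝ) + 1) := h2
      _ ≤ m * (2 ^ (a + 3) * (2 : ℝ) ^ ((k : ℝ) * (1 - δ)) + (2 : ℝ) ^ ((k : ℝ) * (1 - δ))) := by gcongr
      _ = m * (2 ^ (a + 3) + 1) * (2 : ℝ) ^ ((k : ℝ) * (1 - δ)) := by ring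
  -- `E2`
  have hB2 : (E2.card : ℝ) ≤ 768 / ε ^ 2 * (2 : ℝ) ^ ((k : ℝ) * (1 - δ)) := by
    have hkN : N ≤ 2 ^ (k + 1) := by rw [← hN]; exact Nat.pow_le_pow_right (by norm_num) (by omega)
    have h1 := count2 (f := f) (X := 0) (N := N) hj0k hkN V
    have h2 : (E2.card : ℝ) ≤ V.card * (2 ^ j0 * (2 ^ (j0 + 1) + 1)) := by exact_mod_cast h1
    have h3 : (V.card : ℝ) ≤ 2 * (k + 1) * (2 ^ k * Real.exp (-((ε * k / 4) ^ 2 / (2 * k)))) :=
      card_Bad hk1' (by positivity)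
    have e1 : (ε * k / 4) ^ 2 / (2 * k) = ε ^ 2 * k / 32 := by
      field_simp; ring
    rw [e1] at h3
    have h4 : (2 : ℝ) ^ j0 * (2 ^ (j0 + 1) + 1) ≤ 3 * Real.exp (θ * k * Real.log 4) := by
      have h5 : (1 : ℝ) ≤ 2 ^ j0 := one_le_pow₀ (by norm_num)
      have h6 : (2 : ℝ) ^ j0 * (2 ^ (j0 + 1) + 1) ≤ 3 * 4 ^ j0 := by
        have : (4 : ℝ) ^ j0 = 2 ^ j0 * 2 ^ j0 := by
          rw [← mul_pow]; norm_num
        rw [this, pow_succ]
        nlinarith
      have h7 : (4 : ℝ) ^ j0 = Real.exp (j0 * Real.log 4) := by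
        rw [Real.exp_nat_mul, Real.exp_log (by norm_num)]
      have h8 : 0 ≤ Real.log 4 := Real.log_nonneg (by norm_num)
      refine h6.trans ?_
      rw [h7]
      gcongr
    have h5 : (k : ℝ) + 1 ≤ 128 / ε ^ 2 * Real.exp (ε ^ 2 * k / 128) := by
      have h6 := Real.add_one_le_exp (ε ^ 2 * k / 128)
      have h7 : (k : ℝ) + 1 ≤ 128 / ε ^ 2 * (ε ^ 2 * k / 128 + 1) := by
        have e2 : 128 / ε ^ 2 * (ε ^ 2 * k / 128 + 1) = k + 128 / ε ^ 2 := by
          field_simp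
        rw [e2]
        have : 1 ≤ 128 / ε ^ 2 := by
          rw [le_div_iff₀ (by positivity)]; linarith
        linarith
      exact h7.trans (by gcongr)
    have hl2 : Real.log 2 < 0.6931471808 := Real.log_two_lt_d9
    have hl20 : 0 < Real.log 2 := Real.log_pos (by norm_num)
    have hl4 : Real.log 4 = 2 * Real.log 2 := by
      rw [← Real.log_rpow (by norm_num)]; norm_num
    calc (E2.card : ℝ) ≤ V.card * (2 ^ j0 * (2 ^ (j0 + 1) + 1)) := h2
      _ ≤ (2 * (128 / ε ^ 2 * Real.exp (ε ^ 2 * k / 128)) * (2 ^ k * Real.exp (-(ε ^ 2 * k / 32)))) *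
          (3 * Real.exp (θ * k * Real.log 4)) := by
          have : (V.card : ℝ) ≤ 2 * (128 / ε ^ 2 * Real.exp (ε ^ 2 * k / 128)) *
              (2 ^ k * Real.exp (-(ε ^ 2 * k / 32))) := by
            refine h3.trans ?_
            gcongr
          gcongr
      _ = 768 / ε ^ 2 * (2 ^ k * (Real.exp (ε ^ 2 * k / 128) * Real.exp (-(ε ^ 2 * k / 32)) *
          Real.exp (θ * k * Real.log 4))) := by ring
      _ ≤ 768 / ε ^ 2 * (2 : ℝ) ^ ((k : ℝ) * (1 - δ)) := by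
          apply mul_le_mul_of_nonneg_left _ (by positivity)
          rw [← Real.exp_add, ← Real.exp_add]
          have e3 : (2 : ℝ) ^ ((k : ℝ) * (1 - δ)) = 2 ^ k * Real.exp (-(δ * k * Real.log 2)) := by
            have : (k : ℝ) * (1 - δ) = k + (-(δ * k)) := by ring
            rw [this, Real.rpow_add (by norm_num), Real.rpow_natCast]
            congr 1
            rw [Real.rpow_def_of_pos (by norm_num)]
            congr 1; ring
          rw [e3]
          apply mul_le_mul_of_nonneg_left _ (by positivity)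
          apply Real.exp_le_exp.2
          rw [hl4]
          have e4 : ε ^ 2 = 128 * θ := by rw [hθ]; ring
          rw [e4]
          have hθk : 0 ≤ θ * k := by positivity
          have hδk : δ * k ≤ θ * k := mul_le_mul_of_nonneg_right hδθ hk0
          have h9 : δ * k * Real.log 2 ≤ θ * k * Real.log 2 := mul_le_mul_of_nonneg_right hδk hl20.le
          have h10 : θ * k * Real.log 2 ≤ θ * k * 0.6931471808 := mul_le_mul_of_nonneg_left hl2.le hθk
          have h11 : θ * k * (2 * Real.log 2) = 2 * (θ * k * Real.log 2) := by ring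
          rw [h11]
          have e5 : 128 * θ * k / 128 = θ * k := by ring
          have e6 : 128 * θ * k / 32 = 4 * (θ * k) := by ring
          rw [e5, e6]
          linarith
  have hcard' : (((Ioc 0 (0 + N)).filter (fun n : ℕ => pv k (f.eval (n : ℤ)) ∈ V)).card : ℝ) ≤
      E1.card + E2.card := by exact_mod_cast hcard
  calc _ ≤ (E1.card : ℝ) + E2.card := hcard'
    _ ≤ m * (2 ^ (a + 3) + 1) * (2 : ℝ) ^ ((k : ℝ) * (1 - δ)) + 768 / ε ^ 2 * (2 : ℝ) ^ ((k : ℝ) * (1 - δ)) :=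
        add_le_add hB1 hB2
    _ = (m * (2 ^ (a + 3) + 1) + 768 / ε ^ 2) * (2 : ℝ) ^ ((k : ℝ) * (1 - δ)) := by ring
    _ ≤ (m * (2 ^ (a + 3) + 1) + 768 / ε ^ 2 + Y0) * (2 : ℝ) ^ ((k : ℝ) * (1 - δ)) := by
        apply mul_le_mul_of_nonneg_right _ (by positivity)
        linarith

/-- **the classes of the arguments with unbalanced parities** -/
theorem classes {f : ℤ[X]} (hd : 1 ≤ f.natDegree) {η : ℝ} (hη : 0 < η)
    (hη1 : η ≤ 1 / 4) : ∃ δ C : ℝ, 0 < δ ∧ 0 < C ∧ ∀ k : ℕ, ∃ Z : Finset (ZMod (2 ^ k)),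
      (Z.card : ℝ) ≤ C * ((2 : ℝ) ^ k) ^ (1 - δ) ∧
      ∀ n : ℕ, pv k (f.eval (n : ℤ)) ∈ Bad k (η * k) → (n : ZMod (2 ^ k)) ∈ Z := by
  classical
  obtain ⟨δ, C, hδ, hδ1, hC, h⟩ := count hd (ε := 4 * η) (by positivity) (by linarith)
  refine ⟨δ, C, hδ, hC, fun k => ?_⟩
  have e0 : 4 * η * k / 4 = η * k := by ring
  have hk := h k
  rw [e0] at hk
  set A := (Ioc 0 (0 + 2 ^ k)).filter (fun n : ℕ => pv k (f.eval (n : ℤ)) ∈ Bad k (η * k)) with hA
  refine ⟨A.image (fun n : ℕ => (n : ZMod (2 ^ k))), ?_, fun n hb => ?_⟩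
  · calc ((A.image (fun n : ℕ => (n : ZMod (2 ^ k)))).card : ℝ) ≤ A.card := by
            exact_mod_cast Finset.card_image_le
      _ ≤ C * (2 : ℝ) ^ ((k : ℝ) * (1 - δ)) := hk
      _ = C * ((2 : ℝ) ^ k) ^ (1 - δ) := by rw [Real.rpow_mul (by norm_num), Real.rpow_natCast]
  · rw [mem_image]
    have h2 : 0 < 2 ^ k := by positivity
    obtain ⟨m, hm1, hm2⟩ : ∃ m, m ∈ Ioc 0 (0 + 2 ^ k) ∧ m ≡ n [MOD 2 ^ k] := by
      by_cases h0 : n % 2 ^ k = 0
      · refine ⟨2 ^ k, ?_, ?_⟩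
        · rw [mem_Ioc]; omega
        · unfold Nat.ModEq; rw [Nat.mod_self, h0]
      · refine ⟨n % 2 ^ k, ?_, Nat.mod_modEq _ _⟩
        rw [mem_Ioc]
        have := Nat.mod_lt n h2
        omega
    refine ⟨m, ?_, (ZMod.natCast_eq_natCast_iff _ _ _).2 hm2⟩
    rw [hA, mem_filter]
    refine ⟨hm1, ?_⟩
    have e1 : (2 : ℤ) ^ k ∣ (n : ℤ) - m := by
      have := Nat.modEq_iff_dvd.1 hm2
      exact_mod_cast this
    have e2 : (2 : ℤ) ^ k ∣ f.eval (n : ℤ) - f.eval (m : ℤ) := e1.trans (Polynomial.sub_dvd_eval_sub _ _ _)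
    rw [pv_congr e2]
    exact hb

end Pool.Agent.X17.MZ
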